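import Pool.Agent.Helper26.HB.Goals

/-! Packet HB-SP: a linear functional vanishing on `PS` vanishes on `π N`. -/

set_option autoImplicit false

open Pool.Agent.Helper7.Horo (len Gen bb)
open Pool.Agent.Helper26.HB

namespace Pool.Agent.Helper77.HB

theorem gSP : Pool.Agent.Helper26.HB.G_SP := by
  intro hPT G _ S hS N _ _ d π hπ χ hχ
  obtain ⟨L, hL1, hL2⟩ := hPT G S N (fun g g' => g⁻¹ * g' ∈ S) (fun n => χ (π n)) 0
    (fun x y => by simp [hπ, map_add]) (fun g g' h => h)
    (fun n g g' h => by
      have e : ((n : G) * g)⁻¹ * ((n : G) * g') = g⁻¹ * g' := by group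
      rw [e]; exact h)
    (fun p j hj1 hj2 hp n hn => by
      have hmem : (1 / (j : ℝ)) • π n ∈ PS S N d π := ⟨p, j, n, hj1, hj2, hp, hn, rfl⟩
      have h0 := hχ _ hmem
      rw [map_smul, smul_eq_mul] at h0
      have hj : (1 / (j : ℝ)) ≠ 0 := by
        have : (0 : ℝ) < j := by exact_mod_cast hj1
        positivity
      have h1 : χ (π n) = 0 := (mul_eq_zero.1 h0).resolve_left hj
      simp [h1])
  have hle : ∀ g s : G, s ∈ S → L (g * s) ≤ L g := by
    intro g s hs
    have := hL2 g (g * s) (by simpa using hs)
    simpa using this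
  have heq : ∀ g s : G, s ∈ S → L (g * s) = L g := by
    intro g s hs
    refine le_antisymm (hle g s hs) ?_
    have := hle (g * s) s⁻¹ (hS.symm s hs)
    simpa using this
  have hall : ∀ x : G, ∀ g : G, L (g * x) = L g := by
    intro x
    have hx : x ∈ Subgroup.closure (S : Set G) := by rw [hS.gen]; trivial
    induction hx using Subgroup.closure_induction with
    | mem x hx => exact fun g => heq g x hx
    | one => intro g; simp
    | mul x y _ _ ihx ihy => intro g; rw [← mul_assoc, ihy, ihx]
    | inv x _ ihx =>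
      intro g
      have := ihx (g * x⁻¹)
      rw [inv_mul_cancel_right] at this
      exact this.symm
  intro n
  have h1 := hL1 n 1
  have h2 := hall (n : G) 1
  rw [one_mul] at h2
  rw [mul_one, h2] at h1
  have h3 : (fun n => χ (π n)) n + L 1 = L 1 := h1.symm
  simpa using h3

end Pool.Agent.Helper77.HB
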